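import Mathlib

set_option autoImplicit false

namespace Pool.Agent.Results.MP_c8df5e_gt.Yes

open Set Topology

universe u

/-- specialization order -/
def sle {X : Type u} [TopologicalSpace X] (x y : X) : Prop := x ∈ closure ({y} : Set X)

/-- nonempty directed subset for the specialization order -/
def Dir {X : Type u} [TopologicalSpace X] (D : Set X) : Prop := D.Nonempty ∧ DirectedOn sle D

/-- monotone convergence space -/
def IsDSpace (X : Type u) [TopologicalSpace X] : Prop :=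
  T0Space X ∧ ∀ D : Set X, Dir D → ∃ s : X, (∀ d ∈ D, sle d s) ∧ (∀ t, (∀ d ∈ D, sle d t) → sle s t) ∧
    ∀ U : Set X, IsOpen U → s ∈ U → (D ∩ U).Nonempty

/-- `μ : X → Y` is a d-reflection of `X` -/
def IsDReflection {X Y : Type u} [TopologicalSpace X] [TopologicalSpace Y] (μ : X → Y) : Prop :=
  IsDSpace Y ∧ Continuous μ ∧ ∀ (Z : Type u) [TopologicalSpace Z], IsDSpace Z → ∀ f : X → Z,
    Continuous f → ∃! g : Y → Z, Continuous g ∧ g ∘ μ = f

variable {X Y Z : Type u} [TopologicalSpace X] [TopologicalSpace Y] [TopologicalSpace Z]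

lemma sle_iff {x y : X} : sle x y ↔ ∀ U, IsOpen U → x ∈ U → y ∈ U := by
  rw [sle, ← specializes_iff_mem_closure, specializes_iff_forall_open]

lemma sle_rfl {x : X} : sle x x := subset_closure rfl

def Sp (D : Set X) (s : X) : Prop := ∀ U, IsOpen U → (s ∈ U ↔ ∃ d ∈ D, d ∈ U)

lemma dspace_iff : IsDSpace X ↔ T0Space X ∧ ∀ D : Set X, Dir D → ∃ s, Sp D s := by
  refine and_congr_right fun _ => forall₂_congr fun D _ => exists_congr fun s => ⟨?_, fun h => ?_⟩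
  · rintro ⟨h1, -, h3⟩ U hU
    exact ⟨h3 U hU, fun ⟨d, hd, e⟩ => sle_iff.1 (h1 d hd) U hU e⟩
  · refine ⟨fun d hd => sle_iff.2 fun U hU e => (h U hU).2 ⟨d, hd, e⟩, fun t ht => sle_iff.2
      fun U hU e => ?_, fun U hU e => (h U hU).1 e⟩
    obtain ⟨d, hd, e⟩ := (h U hU).1 e
    exact sle_iff.1 (ht d hd) U hU e

def DC (S : Set X) : Prop := ∀ D ⊆ S, Dir D → ∀ s, Sp D s → s ∈ S

def DD (m : X → Y) : Prop := ∀ S, DC S → (∀ x, m x ∈ S) → ∀ y, y ∈ S

lemma Dir.image {D : Set X} (h : Dir D) {f : X → Y}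
    (hf : ∀ a ∈ D, ∀ b ∈ D, sle a b → sle (f a) (f b)) : Dir (f '' D) := by
  refine ⟨h.1.image f, ?_⟩
  rintro _ ⟨a, ha, rfl⟩ _ ⟨b, hb, rfl⟩
  obtain ⟨c, hc, h1, h2⟩ := h.2 a ha b hb
  exact ⟨_, ⟨c, hc, rfl⟩, hf _ ha _ hc h1, hf _ hb _ hc h2⟩

lemma sle_map {f : X → Y} (hf : Continuous f) {a b : X} (h : sle a b) : sle (f a) (f b) :=
  sle_iff.2 fun U hU => sle_iff.1 h _ (hU.preimage hf)

lemma DC.preimage {f : X → Y} (hf : Continuous f) {S : Set Y} (h : DC S) : DC (f ⁻¹' S) :=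
  fun D hD h1 s hs => h _ (image_subset_iff.2 hD) (h1.image fun _ _ _ _ => sle_map hf) _
    fun U hU => (hs _ (hU.preimage hf)).trans (by simp)

omit [TopologicalSpace X] in
lemma DD.open_eq {m : X → Y} (h : DD m) {U V : Set Y} (hU : IsOpen U) (hV : IsOpen V)
    (e : m ⁻¹' U = m ⁻¹' V) : U = V :=
  Set.ext (h {y | y ∈ U ↔ y ∈ V} (fun D hD _ s hs => (hs U hU).trans ((exists_congr fun d =>
    and_congr_right fun hd => hD hd).trans (hs V hV).symm)) fun x => Set.ext_iff.1 e x)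

lemma refl_of {m : X → Y} (hY : IsDSpace Y) (hm : IsInducing m) (h : DD m) : IsDReflection m := by
  refine ⟨hY, hm.continuous, fun Z _ hZ f hf => ?_⟩
  obtain ⟨_, hZ⟩ := dspace_iff.1 hZ
  choose e he1 he2 using fun W : {W : Set Z // IsOpen W} => hm.isOpen_iff.1 (W.2.preimage hf)
  have t0 : ∀ z z' : Z, (∀ W, IsOpen W → (z ∈ W ↔ z' ∈ W)) → z = z' := fun z z' h =>
    (inseparable_iff_forall_isOpen.2 h).eq
  have := h {p | ∃ z, ∀ W, p ∈ e W ↔ z ∈ W.1} (fun D hD h1 s hs => by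
      have : Nonempty Z := let ⟨_, hd⟩ := h1.1; ⟨(hD hd).choose⟩
      choose! k hk using fun p (hp : p ∈ D) => hD hp
      obtain ⟨z, hz⟩ := hZ _ (h1.image (f := k) fun a ha b hb hab => sle_iff.2 fun U hU x =>
        (hk b hb ⟨U, hU⟩).1 (sle_iff.1 hab _ (he1 _) ((hk a ha ⟨U, hU⟩).2 x)))
      refine ⟨z, fun W => (hs _ (he1 W)).trans (Iff.trans ?_ (hz _ W.2).symm)⟩
      simp only [mem_image, exists_exists_and_eq_and]
      exact exists_congr fun d => and_congr_right fun hd => hk d hd W)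
    fun x => ⟨f x, fun W => Set.ext_iff.1 (he2 W) x⟩
  choose g hg using this
  have c : Continuous g := continuous_def.2 fun W hW => by
    convert he1 ⟨W, hW⟩ using 1; ext p; exact (hg p ⟨W, hW⟩).symm
  have c2 : g ∘ m = f := funext fun x => t0 _ _ fun W hW =>
    (hg _ ⟨W, hW⟩).symm.trans (Set.ext_iff.1 (he2 ⟨W, hW⟩) x)
  refine ⟨g, ⟨c, c2⟩, fun g' ⟨c', c3⟩ => funext fun p => t0 _ _ fun W hW => ?_⟩
  exact Set.ext_iff.1 (h.open_eq (hW.preimage c') (hW.preimage c) (by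
    rw [← preimage_comp, ← preimage_comp, c2, c3])) p

lemma sierp : IsDSpace (ULift.{u} Prop) := by
  refine dspace_iff.2 ⟨Homeomorph.ulift.isEmbedding.t0Space, fun D hD => ?_⟩
  have k : ∀ U : Set (ULift.{u} Prop), IsOpen U → ∀ a ∈ U, ⟨True⟩ ∈ U := fun U hU a ha => by
    have : (True : Prop) ⤳ a.down := (specializes_iff_forall_open.2 fun s hs h => by
      induction hs with
      | basic s h' => obtain rfl : s = {True} := h'; rfl
      | univ => trivial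
      | inter s t _ _ h1 h2 => exact ⟨h1 h.1, h2 h.2⟩
      | sUnion S _ h1 => obtain ⟨t, ht, e⟩ := h; exact ⟨t, ht, h1 t ht e⟩)
    exact (this.map continuous_uliftUp).mem_open hU ha
  by_cases h : ⟨True⟩ ∈ D
  · exact ⟨⟨True⟩, fun U hU => ⟨fun e => ⟨_, h, e⟩, fun ⟨d, _, e⟩ => k U hU d e⟩⟩
  · have e : ∀ d ∈ D, d = ⟨False⟩ := fun d hd => ULift.ext _ _ (eq_false fun x => h (by
      rwa [show d = ⟨True⟩ from ULift.ext _ _ (eq_true x)] at hd))
    obtain ⟨d, hd⟩ := hD.1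
    exact ⟨⟨False⟩, fun U _ => ⟨fun x => ⟨d, hd, e d hd ▸ x⟩, fun ⟨d, hd, x⟩ => e d hd ▸ x⟩⟩

lemma IsDReflection.ind {m : X → Y} (h : IsDReflection m) : IsInducing m := by
  refine ⟨le_antisymm h.2.1.le_induced fun U hU => ?_⟩
  obtain ⟨g, ⟨h1, h2⟩, -⟩ := h.2.2 _ sierp (fun x => ⟨x ∈ U⟩)
    (continuous_uliftUp.comp (isOpen_iff_continuous_mem.1 hU))
  exact ⟨{y | (g y).down}, isOpen_iff_continuous_mem.2 (continuous_uliftDown.comp h1),
    Set.ext fun x => iff_of_eq (congrArg ULift.down (congrFun h2 x))⟩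

lemma IsDReflection.dd {m : X → Y} (h : IsDReflection m) : DD m := by
  intro S hS hm y
  obtain ⟨_, hY⟩ := dspace_iff.1 h.1
  have hd : IsDSpace S := dspace_iff.2 ⟨inferInstance, fun D hD => by
    have h1 := hD.image (f := Subtype.val) fun _ _ _ _ => sle_map continuous_subtype_val
    obtain ⟨s, hs⟩ := hY _ h1
    refine ⟨⟨s, hS _ (by rintro _ ⟨x, -, rfl⟩; exact x.2) h1 s hs⟩, ?_⟩
    rintro _ ⟨U, hU, rfl⟩
    exact (hs U hU).trans (by simp only [mem_image, exists_exists_and_eq_and]; rfl)⟩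
  obtain ⟨g, ⟨h1, h2⟩, -⟩ := h.2.2 S hd (fun x => ⟨m x, hm x⟩) (h.2.1.subtype_mk _)
  obtain ⟨k, -, hk⟩ := h.2.2 Y h.1 m h.2.1
  have e : Subtype.val ∘ g = id := (hk _ ⟨continuous_subtype_val.comp h1, by
    rw [Function.comp_assoc, h2]; rfl⟩).trans (hk _ ⟨continuous_id, rfl⟩).symm
  rw [show y = (g y).1 from (congrFun e y).symm]
  exact (g y).2

variable {I : Type u} {A B : I → Type u} [∀ i, TopologicalSpace (A i)] [∀ i, TopologicalSpace (B i)]

lemma sle_pi {a b : ∀ i, B i} : sle a b ↔ ∀ i, sle (a i) (b i) := by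
  simp only [sle, ← specializes_iff_mem_closure, specializes_pi]

lemma sp_pi {D : Set (∀ i, B i)} {s : ∀ i, B i} (h1 : ∀ d ∈ D, sle d s)
    (h2 : ∀ (F : Finset I) (u : ∀ i, Set (B i)), (∀ i ∈ F, IsOpen (u i) ∧ s i ∈ u i) →
      ∃ d ∈ D, ∀ i ∈ F, d i ∈ u i) : Sp D s := fun U hU =>
  ⟨fun e => by
    obtain ⟨F, u, k1, k2⟩ := isOpen_pi_iff.1 hU s e
    obtain ⟨d, hd, k⟩ := h2 F u k1
    exact ⟨d, hd, k2 k⟩, fun ⟨d, hd, e⟩ => sle_iff.1 (h1 d hd) U hU e⟩

lemma dspace_pi (h : ∀ i, IsDSpace (B i)) : IsDSpace (∀ i, B i) := by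
  classical
  have := fun i => (h i).1
  refine dspace_iff.2 ⟨inferInstance, fun D hD => ?_⟩
  choose s hs using fun i => (dspace_iff.1 (h i)).2 _
    (hD.image (f := fun a => a i) fun _ _ _ _ => sle_map (continuous_apply i))
  refine ⟨s, sp_pi (fun d hd => sle_pi.2 fun i => sle_iff.2 fun U hU e =>
    (hs i U hU).2 ⟨_, ⟨d, hd, rfl⟩, e⟩) fun F u hu => ?_⟩
  induction F using Finset.induction_on with
  | empty => exact let ⟨d, hd⟩ := hD.1; ⟨d, hd, by simp⟩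
  | insert j F _ ih =>
    obtain ⟨d, hd, k⟩ := ih fun i hi => hu i (Finset.mem_insert_of_mem hi)
    have hj := hu j (Finset.mem_insert_self _ _)
    obtain ⟨_, ⟨d', hd', rfl⟩, k'⟩ := (hs j _ hj.1).1 hj.2
    obtain ⟨c, hc, c1, c2⟩ := hD.2 d hd d' hd'
    refine ⟨c, hc, fun i hi => ?_⟩
    rcases Finset.mem_insert.1 hi with rfl | hi'
    · exact sle_iff.1 (sle_pi.1 c2 i) _ hj.1 k'
    · exact sle_iff.1 (sle_pi.1 c1 i) _ (hu i hi).1 (k i hi')

lemma dd_pi {μ : ∀ i, A i → B i} (h : ∀ i, DD (μ i)) : DD (Pi.map μ) := by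
  classical
  intro S hS hm a
  choose x hx using fun i => h i {t | ∃ y, sle (μ i y) t} (fun D hD h1 s hs => by
    obtain ⟨d, hd⟩ := h1.1
    obtain ⟨y, hy⟩ := hD hd
    exact ⟨y, sle_iff.2 fun U hU e => (hs U hU).2 ⟨d, hd, sle_iff.1 hy U hU e⟩⟩)
    (fun y => ⟨y, subset_closure rfl⟩) (a i)
  have k : ∀ (F : Finset I) (y : ∀ i, A i), F.piecewise a (Pi.map μ y) ∈ S := fun F => by
    induction F using Finset.induction_on with
    | empty => simpa using hm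
    | insert j F hj ih =>
      intro y
      rw [Finset.piecewise_insert]
      refine h j _ (hS.preimage (continuous_const.update j continuous_id)) (fun t => ?_) (a j)
      have := ih (Function.update y j t)
      convert this using 1
      simp only [mem_preimage, id]
      apply iff_of_eq
      congr 1
      funext i
      by_cases e : i = j
      · subst e; simp [hj]
      · by_cases e' : i ∈ F <;> simp [e, e']
  have l : ∀ F G : Finset I, F ⊆ G →
      sle (F.piecewise a (Pi.map μ x)) (G.piecewise a (Pi.map μ x)) := fun F G e =>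
    sle_pi.2 fun i => by
      by_cases e1 : i ∈ F
      · simp [e1, e e1, sle_rfl]
      · by_cases e2 : i ∈ G
        · simpa [e1, e2] using hx i
        · simp [e1, e2, sle_rfl]
  refine hS (range fun F : Finset I => F.piecewise a (Pi.map μ x)) ?_ ⟨range_nonempty _, ?_⟩ a
    (sp_pi ?_ fun F u hu => ⟨_, ⟨F, rfl⟩, fun i hi => by simpa [hi] using (hu i hi).2⟩)
  · rintro _ ⟨F, rfl⟩; exact k F x
  · rintro _ ⟨F, rfl⟩ _ ⟨G, rfl⟩
    exact ⟨_, ⟨F ∪ G, rfl⟩, l _ _ Finset.subset_union_left, l _ _ Finset.subset_union_right⟩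
  · rintro _ ⟨F, rfl⟩
    refine sle_pi.2 fun i => ?_
    by_cases e1 : i ∈ F
    · simp [e1, sle_rfl]
    · simpa [e1] using hx i

theorem result (I : Type u) (X Y : I → Type u) [∀ i, TopologicalSpace (X i)]
    [∀ i, TopologicalSpace (Y i)] [∀ i, T0Space (X i)] (μ : ∀ i, X i → Y i)
    (h : ∀ i, IsDReflection (μ i)) (Z : Type u) [TopologicalSpace Z] (ν : (∀ i, X i) → Z)
    (hν : IsDReflection ν) : ∃ e : Z ≃ₜ (∀ i, Y i), ∀ x i, e (ν x) i = μ i (x i) := by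
  have k : IsDReflection (Pi.map μ) := refl_of (dspace_pi fun i => (h i).1)
    (IsInducing.piMap fun i => (h i).ind) (dd_pi fun i => (h i).dd)
  obtain ⟨f, ⟨f1, f2⟩, -⟩ := hν.2.2 _ k.1 _ k.2.1
  obtain ⟨g, ⟨g1, g2⟩, -⟩ := k.2.2 _ hν.1 _ hν.2.1
  obtain ⟨_, -, u1⟩ := hν.2.2 _ hν.1 _ hν.2.1
  obtain ⟨_, -, u2⟩ := k.2.2 _ k.1 _ k.2.1
  have e1 : g ∘ f = id := (u1 _ ⟨g1.comp f1, by rw [Function.comp_assoc, f2, g2]⟩).trans
    (u1 _ ⟨continuous_id, rfl⟩).symm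
  have e2 : f ∘ g = id := (u2 _ ⟨f1.comp g1, by rw [Function.comp_assoc, g2, f2]⟩).trans
    (u2 _ ⟨continuous_id, rfl⟩).symm
  exact ⟨⟨⟨f, g, congrFun e1, congrFun e2⟩, f1, g1⟩, fun x => congrFun (congrFun f2 x)⟩

end Pool.Agent.Results.MP_c8df5e_gt.Yes
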